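import Mathlib
import Pool.Agent.U218.ED.Deg

/-! # Division points of an elliptic curve over the field of torsion points -/

set_option autoImplicit false
set_option linter.all false

open Polynomial Module IntermediateField

namespace Pool.Agent.U218.EE

open WeierstrassCurve.Affine (Point)

/-- the set of the coordinates of a point -/
def coords {F : Type*} [Field F] {V : WeierstrassCurve.Affine F} : V.Point → Set F
  | .zero => ∅
  | .some x y _ => {x, y}

section kummer

variable {K Ω : Type*} [Field K] [Field Ω] [Algebra K Ω] [DecidableEq Ω]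
  (W : WeierstrassCurve.Affine K) (p : ℕ)

/-- the coordinates of the torsion points of order prime to `p` -/
def torSet : Set Ω :=
  {t | ∃ Q : (W.baseChange Ω).Point, (∃ m : ℕ, m.Coprime p ∧ m • Q = 0) ∧ t ∈ coords Q}

variable (M : IntermediateField K Ω)

/-- the points with a multiple of order prime to `p` rational over `M` -/
def InHull (Q : (W.baseChange Ω).Point) : Prop :=
  ∃ n : ℕ, n.Coprime p ∧ ∀ t ∈ coords (n • Q), t ∈ M

/-- the action of an automorphism on the points -/
noncomputable def act (σ : Ω →ₐ[M] Ω) :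
    (W.baseChange Ω).Point →+ (W.baseChange Ω).Point :=
  Point.map (W' := W) (σ.restrictScalars K)

variable {W p M}

lemma coords_act (σ : Ω →ₐ[M] Ω) (Q : (W.baseChange Ω).Point) :
    coords (act W M σ Q) = σ '' coords Q := by
  rcases Q with _ | ⟨x, y, h⟩
  · have : act W M σ Point.zero = Point.zero := rfl
    rw [this]
    simp [coords]
  · have : act W M σ (Point.some x y h) = Point.some (σ x) (σ y)
        ((W.baseChange_nonsingular (σ.restrictScalars K).injective ..).mpr h) := rfl
    rw [this]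
    simp [coords, Set.image_pair]

lemma act_fixed (σ : Ω →ₐ[M] Ω) {Q : (W.baseChange Ω).Point}
    (h : ∀ t ∈ coords Q, t ∈ M) : act W M σ Q = Q := by
  rcases Q with _ | ⟨x, y, hQ⟩
  · rfl
  · have hx : σ x = x := σ.commutes ⟨x, h x (by simp [coords])⟩
    have hy : σ y = y := σ.commutes ⟨y, h y (by simp [coords])⟩
    have : act W M σ (Point.some x y hQ) = Point.some (σ x) (σ y)
        ((W.baseChange_nonsingular (σ.restrictScalars K).injective ..).mpr hQ) := rfl
    rw [this]
    simp only [hx, hy]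

lemma act_sub_tor (σ : Ω →ₐ[M] Ω) {Q : (W.baseChange Ω).Point}
    (h : InHull W p M Q) : ∃ n : ℕ, n.Coprime p ∧ n • (act W M σ Q - Q) = 0 := by
  obtain ⟨n, hn, hQ⟩ := h
  refine ⟨n, hn, ?_⟩
  rw [nsmul_sub, ← map_nsmul, act_fixed σ hQ, sub_self]

lemma act_comm (hM : torSet W p ⊆ (M : Set Ω)) (σ τ : Ω →ₐ[M] Ω) {Q : (W.baseChange Ω).Point}
    (h : InHull W p M Q) : act W M σ (act W M τ Q) = act W M τ (act W M σ Q) := by
  have key : ∀ ρ ξ : Ω →ₐ[M] Ω,
      act W M ρ (act W M ξ Q - Q) = act W M ξ Q - Q := by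
    intro ρ ξ
    apply act_fixed
    intro t ht
    obtain ⟨n, hn, h0⟩ := act_sub_tor ξ h
    exact hM ⟨_, ⟨n, hn, h0⟩, ht⟩
  have h1 := key σ τ
  have h2 := key τ σ
  rw [map_sub] at h1 h2
  have e1 : act W M σ (act W M τ Q) = act W M τ Q - Q + act W M σ Q := by
    rw [← h1]; abel
  have e2 : act W M τ (act W M σ Q) = act W M σ Q - Q + act W M τ Q := by
    rw [← h2]; abel
  rw [e1, e2]
  abel

lemma InHull.act {Q : (W.baseChange Ω).Point} (h : InHull W p M Q)
    (σ : Ω →ₐ[M] Ω) : InHull W p M (act W M σ Q) := by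
  obtain ⟨n, hn, hQ⟩ := h
  refine ⟨n, hn, ?_⟩
  rw [← map_nsmul, act_fixed σ hQ]
  exact hQ

lemma comm_coord (hM : torSet W p ⊆ (M : Set Ω)) (σ τ : Ω →ₐ[M] Ω) {Q : (W.baseChange Ω).Point}
    (h : InHull W p M Q) {t : Ω} (ht : t ∈ coords Q) : σ (τ t) = τ (σ t) := by
  have h1 := act_comm hM σ τ h
  rcases Q with _ | ⟨x, y, hQ⟩
  · simp [coords] at ht
  · have e1 : Pool.Agent.U218.EE.act W M σ (Pool.Agent.U218.EE.act W M τ (Point.some x y hQ)) =
        Point.some (σ (τ x)) (σ (τ y))
        ((W.baseChange_nonsingular (σ.restrictScalars K).injective ..).mpr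
          ((W.baseChange_nonsingular (τ.restrictScalars K).injective ..).mpr hQ)) := rfl
    have e2 : Pool.Agent.U218.EE.act W M τ (Pool.Agent.U218.EE.act W M σ (Point.some x y hQ)) =
        Point.some (τ (σ x)) (τ (σ y))
        ((W.baseChange_nonsingular (τ.restrictScalars K).injective ..).mpr
          ((W.baseChange_nonsingular (σ.restrictScalars K).injective ..).mpr hQ)) := rfl
    rw [e1, e2, Point.some.injEq] at h1
    simp only [coords, Set.mem_insert_iff, Set.mem_singleton_iff] at ht
    rcases ht with rfl | rfl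
    · exact h1.1
    · exact h1.2

variable (M) in
/-- the field generated over `M` by the coordinates of the points of `Γ` -/
def ptField (Γ : Set (W.baseChange Ω).Point) : IntermediateField M Ω :=
  adjoin M {t | ∃ Q ∈ Γ, t ∈ coords Q}

lemma comm_ptField (hM : torSet W p ⊆ (M : Set Ω)) {Γ : Set (W.baseChange Ω).Point} (hΓ : ∀ Q ∈ Γ, InHull W p M Q)
    (σ τ : Ω →ₐ[M] Ω) {x : Ω} (hx : x ∈ ptField M Γ) :
    σ (τ x) = τ (σ x) := by
  induction hx using IntermediateField.adjoin_induction with
  | mem y hy =>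
    obtain ⟨Q, hQ, hy⟩ := hy
    exact comm_coord hM σ τ (hΓ Q hQ) hy
  | algebraMap x => rw [AlgHom.commutes, AlgHom.commutes, AlgHom.commutes]
  | add x y hx' hy' hx hy => rw [map_add, map_add, hx, hy, map_add, map_add]
  | mul x y hx' hy' hx hy => rw [map_mul, map_mul, hx, hy, map_mul, map_mul]
  | inv x hx' hx => rw [map_inv₀, map_inv₀, hx, map_inv₀, map_inv₀]

end kummer

end Pool.Agent.U218.EE
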