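import Mathlib
import Pool.Agent.U218.EE.Kum
import Pool.Agent.Y740.RL.Ell5
import Pool.Agent.TH951.FE.Ht
import Pool.Agent.H58P.Ht

/-! # Reduction to number fields -/

set_option autoImplicit false
set_option linter.all false

open Polynomial Module IntermediateField Filter Topology NumberField

namespace Pool.Agent.U218.EE

open WeierstrassCurve.Affine (Point)
open Pool.Agent.Y740.RL (xc xySet Tor FewConj RamLe)

/-- the absolute logarithmic height of the first coordinate -/
noncomputable def xHeight {F : Type*} [Field F] [CharZero F] {V : WeierstrassCurve.Affine F} :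
    V.Point → ℝ
  | .zero => 0
  | .some x _ _ => NumberField.absLogHeight₁ x

/-- invariance of the height under embeddings -/
lemma absLog_embed {L Ω : Type} [Field L] [NumberField L] [Field Ω] [CharZero Ω]
    (ψ : Ω →+* AlgebraicClosure ℚ) (ι : L →+* Ω) (x : L) :
    absLogHeight₁ (ι x) = absLogHeight₁ x := by
  have hx : IsIntegral ℚ x := Algebra.IsIntegral.isIntegral x
  haveI : FiniteDimensional ℚ ℚ⟮x⟯ := adjoin.finiteDimensional hx
  haveI : NumberField ℚ⟮x⟯ := {}
  have hx' : IsIntegral ℚ (ι x) := by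
    have := hx.map (ι.toRatAlgHom)
    exact this
  haveI : FiniteDimensional ℚ ℚ⟮ι x⟯ := adjoin.finiteDimensional hx'
  haveI : NumberField ℚ⟮ι x⟯ := {}
  rw [Pool.Agent.H58P.absLogHeight₁_general x hx (ψ.comp ι),
    Pool.Agent.H58P.absLogHeight₁_general (ι x) hx' ψ]
  rfl

lemma logHeight_xc {K : Type} [Field K] [NumberField K] (W : WeierstrassCurve.Affine K)
    {L : Type} [Field L] [NumberField L] [Algebra K L] [DecidableEq L]
    {Ω : Type} [Field Ω] [CharZero Ω] [Algebra K Ω] [DecidableEq Ω]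
    (ψ : Ω →+* AlgebraicClosure ℚ) (ι : L →ₐ[K] Ω) (Q : (W.baseChange L).Point) :
    Height.logHeight (xc Q) = finrank ℚ L * xHeight (Point.map (W' := W) ι Q) := by
  rcases Q with _ | ⟨x, y, h⟩
  · have h1 : Point.map (W' := W) ι (Point.zero) = Point.zero := rfl
    rw [h1]
    show Height.logHeight ![1, 0] = finrank ℚ L * 0
    rw [mul_zero, Height.logHeight_swap, ← Height.logHeight₁_eq_logHeight,
      Height.logHeight₁_zero]
  · have h1 : Point.map (W' := W) ι (Point.some x y h) = Point.some (ι x) (ι y)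
        ((W.baseChange_nonsingular ι.injective ..).mpr h) := rfl
    rw [h1]
    show Height.logHeight ![x, 1] = finrank ℚ L * absLogHeight₁ (ι x)
    rw [← TH951.FE.logHeight₁_pair, TH951.FE.logHeight₁_abs]
    congr 1
    exact (absLog_embed ψ (ι : L →+* Ω) x).symm

section tower

variable {K : Type} [Field K] [NumberField K] (W : WeierstrassCurve.Affine K) (p : ℕ)


noncomputable local instance : DecidableEq (AlgebraicClosure K) := fun a b => Classical.propDecidable (a = b)

/-- the points of order prime to `p` -/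
def torPts : Set (W.baseChange (AlgebraicClosure K)).Point := {Q | ∃ m : ℕ, m.Coprime p ∧ m • Q = 0}

lemma coords_finite {F : Type*} [Field F] {V : WeierstrassCurve.Affine F} (Q : V.Point) :
    (coords Q).Finite := by
  rcases Q with _ | ⟨x, y, h⟩
  · exact Set.finite_empty
  · show ({x, y} : Set F).Finite
    exact Set.toFinite _

/-- the field generated over `E` by the coordinates of the torsion points of order prime to `p` -/
noncomputable def bigField (E : IntermediateField K (AlgebraicClosure K)) : IntermediateField K (AlgebraicClosure K) :=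
  adjoin K ((E : Set (AlgebraicClosure K)) ∪ torSet W p)

/-- an element of the big field lies in a field generated by finitely many elements -/
lemma exists_fin {E : IntermediateField K (AlgebraicClosure K)} {c : (AlgebraicClosure K)} (hc : c ∈ bigField W p E) :
    ∃ (S : Set (AlgebraicClosure K)) (𝒬 : Set (W.baseChange (AlgebraicClosure K)).Point), S.Finite ∧ S ⊆ (E : Set (AlgebraicClosure K)) ∧
      𝒬.Finite ∧ 𝒬 ⊆ torPts W p ∧ c ∈ adjoin K (S ∪ ⋃ Q ∈ 𝒬, coords Q) := by
  classical
  obtain ⟨T, hT, hcT⟩ := IntermediateField.exists_finset_of_mem_adjoin hc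
  have h1 : ∀ t ∈ {t ∈ (T : Set (AlgebraicClosure K)) | t ∉ (E : Set (AlgebraicClosure K))}, ∃ Q : (W.baseChange (AlgebraicClosure K)).Point,
      (∃ m : ℕ, m.Coprime p ∧ m • Q = 0) ∧ t ∈ coords Q := by
    rintro t ⟨ht, htE⟩
    exact (hT ht).resolve_left htE
  choose! q hq using h1
  refine ⟨{t ∈ (T : Set (AlgebraicClosure K)) | t ∈ (E : Set (AlgebraicClosure K))}, q '' {t ∈ (T : Set (AlgebraicClosure K)) | t ∉ (E : Set (AlgebraicClosure K))},
    T.finite_toSet.subset fun t ht => ht.1, fun t ht => ht.2,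
    (T.finite_toSet.subset fun t ht => ht.1).image _, ?_, ?_⟩
  · rintro _ ⟨t, ht, rfl⟩
    exact (hq t ht).1
  · refine adjoin.mono K _ _ ?_ hcT
    intro t ht
    by_cases htE : t ∈ (E : Set (AlgebraicClosure K))
    · exact Or.inl ⟨ht, htE⟩
    · exact Or.inr (Set.mem_biUnion ⟨t, ⟨ht, htE⟩, rfl⟩ (hq t ⟨ht, htE⟩).2)

lemma exists_fin_poly {E : IntermediateField K (AlgebraicClosure K)} (g : Polynomial (bigField W p E)) :
    ∃ (S : Set (AlgebraicClosure K)) (𝒬 : Set (W.baseChange (AlgebraicClosure K)).Point), S.Finite ∧ S ⊆ (E : Set (AlgebraicClosure K)) ∧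
      𝒬.Finite ∧ 𝒬 ⊆ torPts W p ∧
      ∀ i, ((g.coeff i : bigField W p E) : (AlgebraicClosure K)) ∈ adjoin K (S ∪ ⋃ Q ∈ 𝒬, coords Q) := by
  choose S 𝒬 h1 h2 h3 h4 h5 using fun i : ℕ => exists_fin W p (g.coeff i).2
  refine ⟨⋃ i ∈ Finset.range (g.natDegree + 1), S i,
    ⋃ i ∈ Finset.range (g.natDegree + 1), 𝒬 i, ?_, ?_, ?_, ?_, ?_⟩
  · exact Set.Finite.biUnion (Finset.finite_toSet _) fun i _ => h1 i
  · intro Q hQ
    simp only [Set.mem_iUnion] at hQ
    obtain ⟨i, _, hQ⟩ := hQ
    exact h2 i hQ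
  · exact Set.Finite.biUnion (Finset.finite_toSet _) fun i _ => h3 i
  · intro Q hQ
    simp only [Set.mem_iUnion] at hQ
    obtain ⟨i, _, hQ⟩ := hQ
    exact h4 i hQ
  · intro i
    by_cases hi : i ≤ g.natDegree
    · refine adjoin.mono K _ _ ?_ (h5 i)
      rintro t (ht | ht)
      · left
        simp only [Set.mem_iUnion]
        exact ⟨i, Finset.mem_range.mpr (by omega), ht⟩
      · right
        simp only [Set.mem_iUnion] at ht ⊢
        obtain ⟨Q, hQ, ht⟩ := ht
        exact ⟨Q, ⟨i, Finset.mem_range.mpr (by omega), hQ⟩, ht⟩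
    · rw [coeff_eq_zero_of_natDegree_lt (by omega)]
      exact zero_mem _

/-- the field generated by finitely many torsion points is generated as the library wants it -/
lemma adjoin_xySet {𝒬 : Set (W.baseChange (AlgebraicClosure K)).Point} (h𝒬 : 𝒬 ⊆ torPts W p)
    (E₀ : IntermediateField K (AlgebraicClosure K))
    (N : IntermediateField E₀ (AlgebraicClosure K)) (hN : N = adjoin E₀ (⋃ Q ∈ 𝒬, coords Q))
    [DecidableEq N] [NumberField N] :
    Algebra.adjoin E₀ (xySet N W p) = ⊤ := by
  haveI : Algebra.IsAlgebraic E₀ (AlgebraicClosure K) := Algebra.IsAlgebraic.tower_top (K := K) _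
  have hsub : ∀ t ∈ (⋃ Q ∈ 𝒬, coords Q), ∃ t' ∈ xySet N W p, (t' : (AlgebraicClosure K)) = t := by
    intro t ht
    simp only [Set.mem_iUnion] at ht
    obtain ⟨Q, hQ, ht⟩ := ht
    obtain ⟨m, hm, h0⟩ := h𝒬 hQ
    have hcN : ∀ s ∈ coords Q, s ∈ N := fun s hs => by
      rw [hN]
      exact subset_adjoin E₀ _ (Set.mem_biUnion hQ hs)
    rcases Q with _ | ⟨x, y, h⟩
    · simp [coords] at ht
    · have hx : x ∈ N := hcN x (by simp [coords])
      have hy : y ∈ N := hcN y (by simp [coords])
      let j : N →ₐ[K] (AlgebraicClosure K) := N.val.restrictScalars K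
      have h' : (W.baseChange N).Nonsingular ⟨x, hx⟩ ⟨y, hy⟩ :=
        (W.baseChange_nonsingular (f := j) j.injective ..).mp h
      have hTor : Tor p (Point.some (⟨x, hx⟩ : N) ⟨y, hy⟩ h' : (W.baseChange N).Point) := by
        refine ⟨m, hm, ?_⟩
        apply Point.map_injective (W' := W) j
        rw [map_nsmul, Point.map_zero]
        exact h0
      simp only [coords, Set.mem_insert_iff, Set.mem_singleton_iff] at ht
      rcases ht with rfl | rfl
      · exact ⟨⟨t, hx⟩, ⟨_, _, h', hTor, Or.inl rfl⟩, rfl⟩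
      · exact ⟨⟨t, hy⟩, ⟨_, _, h', hTor, Or.inr rfl⟩, rfl⟩
  rw [eq_top_iff]
  rintro ⟨z, hz⟩ -
  have h1 : z ∈ Algebra.adjoin E₀ (⋃ Q ∈ 𝒬, coords Q) := by
    have h2 := IntermediateField.adjoin_toSubalgebra (F := E₀) (E := (AlgebraicClosure K)) (⋃ Q ∈ 𝒬, coords Q)
    rw [← h2, ← hN]
    exact hz
  have h3 : Algebra.adjoin E₀ (⋃ Q ∈ 𝒬, coords Q) ≤
      (Algebra.adjoin E₀ (xySet N W p)).map N.val := by
    apply Algebra.adjoin_le
    intro t ht
    obtain ⟨t', ht', rfl⟩ := hsub t ht
    exact ⟨t', Algebra.subset_adjoin ht', rfl⟩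
  obtain ⟨z', hz', he⟩ := Subalgebra.mem_map.mp (h3 h1)
  have : z' = ⟨z, hz⟩ := Subtype.ext he
  rw [← this]
  exact hz'

end tower

end Pool.Agent.U218.EE
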