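import Mathlib
import Pool.Agent.U218.EE.Fin

/-! # The lower bound over the field of the torsion points -/

set_option autoImplicit false
set_option linter.all false

open Polynomial Module IntermediateField Filter Topology NumberField

namespace Pool.Agent.U218.EE

open WeierstrassCurve.Affine (Point)
open Pool.Agent.Y740.RL (xc xySet Tor FewConj RamLe)

section tower

variable {K : Type} [Field K] [NumberField K] (W : WeierstrassCurve.Affine K) {p : ℕ}


noncomputable local instance : DecidableEq (AlgebraicClosure K) := fun a b => Classical.propDecidable (a = b)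

/-- the bound -/
noncomputable def bd (C e n : ℝ) : ℝ :=
  Real.exp (-(C * Real.sqrt (1 + Real.log n))) / (C * e * n)

lemma bd_anti {C e x y : ℝ} (hC : 0 < C) (he : 0 ≤ e) (hx : 1 ≤ x) (hxy : x ≤ y) :
    bd C e y ≤ bd C e x := by
  unfold bd
  rcases he.eq_or_lt with rfl | he
  · simp
  have h1 : Real.log x ≤ Real.log y := Real.log_le_log (by linarith) hxy
  have h2 : Real.sqrt (1 + Real.log x) ≤ Real.sqrt (1 + Real.log y) :=
    Real.sqrt_le_sqrt (by linarith)
  have h3 : Real.exp (-(C * Real.sqrt (1 + Real.log y))) ≤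
      Real.exp (-(C * Real.sqrt (1 + Real.log x))) :=
    Real.exp_le_exp.mpr (neg_le_neg (mul_le_mul_of_nonneg_left h2 hC.le))
  exact div_le_div₀ (Real.exp_pos _).le h3 (by positivity)
    (mul_le_mul_of_nonneg_left hxy (by positivity))

/-- the conclusion of the library theorem -/
def LibBound (W : WeierstrassCurve.Affine K) (p : ℕ) (𝔭 : Ideal (𝓞 K)) (B n : ℕ) (C : ℝ) : Prop :=
  ∀ (E N L : Type) [Field E] [NumberField E] [Field N] [NumberField N]
      [Field L] [NumberField L] [DecidableEq N] [DecidableEq L] [Algebra K E] [Algebra K N]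
      [Algebra K L] [Algebra E N] [Algebra N L] [IsScalarTower K E N] [IsScalarTower K N L]
      [IsGalois K E], FewConj 𝔭 E B n →
      Algebra.adjoin E (xySet N W p) = ⊤ →
      ∀ P : (W.baseChange L).Point, ¬ IsOfFinAddOrder P →
      ∃ h : ℝ, Tendsto (fun k : ℕ => Height.logHeight (xc (p ^ k • P)) /
          ((finrank ℚ L : ℝ) * (p : ℝ) ^ (2 * k))) atTop (𝓝 h) ∧
        ∀ e : ℕ, RamLe 𝔭 E e → bd C e (finrank N L) ≤ h

lemma exists_psi : Nonempty ((AlgebraicClosure K) →+* AlgebraicClosure ℚ) := by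
  haveI : Algebra.IsAlgebraic ℚ (AlgebraicClosure K) := Algebra.IsAlgebraic.trans ℚ K (AlgebraicClosure K)
  exact ⟨(IsAlgClosed.lift (R := ℚ) (S := (AlgebraicClosure K)) (M := AlgebraicClosure ℚ)).toRingHom⟩

/-- the condition on the finite Galois subextensions of `E` -/
def FewInf (𝔭 : Ideal (𝓞 K)) (E : IntermediateField K (AlgebraicClosure K)) (B n : ℕ) : Prop :=
  ∀ (E₀ : IntermediateField K (AlgebraicClosure K)) [NumberField E₀], E₀ ≤ E → IsGalois K E₀ → FewConj 𝔭 E₀ B n

/-- the ramification indices of the finite Galois subextensions of `E` -/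
def RamInf (𝔭 : Ideal (𝓞 K)) (E : IntermediateField K (AlgebraicClosure K)) (e : ℕ) : Prop :=
  ∀ (E₀ : IntermediateField K (AlgebraicClosure K)) [NumberField E₀], E₀ ≤ E → IsGalois K E₀ → RamLe 𝔭 E₀ e

theorem bound_bigField {C : ℝ} (hC : 0 < C) {𝔭 : Ideal (𝓞 K)} {B n : ℕ}
    (H : LibBound W p 𝔭 B n C) (E : IntermediateField K (AlgebraicClosure K)) [Normal K E] (hfew : FewInf 𝔭 E B n)
    (P : (W.baseChange (AlgebraicClosure K)).Point) (hP : ¬ IsOfFinAddOrder P) (α : (AlgebraicClosure K))
    (hα : ∀ t ∈ coords P, t ∈ K⟮α⟯) :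
    ∃ h : ℝ, Tendsto (fun k : ℕ => xHeight (p ^ k • P) / (p : ℝ) ^ (2 * k)) atTop (𝓝 h) ∧
      ∀ e : ℕ, RamInf 𝔭 E e → bd C e (minpoly (bigField W p E) α).natDegree ≤ h := by
  classical
  set M := bigField W p E with hM
  obtain ⟨ψ⟩ := exists_psi (K := K)
  have hαK : IsIntegral K α := (Algebra.IsAlgebraic.isAlgebraic α).isIntegral
  have hαM : IsIntegral M α := hαK.tower_top
  obtain ⟨S, 𝒬, hS1, hS2, h1, h2, h3⟩ := exists_fin_poly W p (minpoly M α)
  haveI : Finite S := hS1.to_subtype
  haveI : IsGalois K (AlgebraicClosure K) := ⟨⟩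
  obtain ⟨E₀, hE1, hE2, hE3, hE4⟩ : ∃ E₀ : IntermediateField K (AlgebraicClosure K), FiniteDimensional K E₀ ∧
      IsGalois K E₀ ∧ S ⊆ (E₀ : Set (AlgebraicClosure K)) ∧ E₀ ≤ E := by
    refine ⟨(FiniteGaloisIntermediateField.adjoin K S).toIntermediateField,
      (FiniteGaloisIntermediateField.adjoin K S).finiteDimensional,
      (FiniteGaloisIntermediateField.adjoin K S).isGalois,
      FiniteGaloisIntermediateField.subset_adjoin K S, ?_⟩
    rw [FiniteGaloisIntermediateField.adjoin_val, normalClosure_le_iff_of_normal, adjoin_le_iff]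
    exact hS2
  haveI : FiniteDimensional ℚ E₀ := FiniteDimensional.trans ℚ K E₀
  haveI : NumberField E₀ := {}
  haveI : Algebra.IsAlgebraic E₀ (AlgebraicClosure K) := Algebra.IsAlgebraic.tower_top (K := K) _
  set N : IntermediateField E₀ (AlgebraicClosure K) := adjoin E₀ (⋃ Q ∈ 𝒬, coords Q) with hN
  haveI hNfd : FiniteDimensional E₀ N := by
    haveI : Finite (⋃ Q ∈ 𝒬, coords Q : Set (AlgebraicClosure K)) :=
      (Set.Finite.biUnion h1 fun Q _ => coords_finite Q).to_subtype
    exact IntermediateField.finiteDimensional_adjoin fun x _ =>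
      (Algebra.IsAlgebraic.isAlgebraic x).isIntegral
  haveI : FiniteDimensional ℚ N := FiniteDimensional.trans ℚ E₀ N
  haveI : NumberField N := {}
  haveI : IsScalarTower K N (AlgebraicClosure K) := IsScalarTower.of_algebraMap_eq fun x => rfl
  have hαN : IsIntegral N α := hαK.tower_top
  haveI : FiniteDimensional N N⟮α⟯ := adjoin.finiteDimensional hαN
  haveI : IsScalarTower ℚ N N⟮α⟯ := inferInstance
  haveI : FiniteDimensional ℚ N⟮α⟯ := FiniteDimensional.trans ℚ N N⟮α⟯
  haveI : NumberField N⟮α⟯ := {}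
  haveI : IsScalarTower K E₀ N := inferInstance
  haveI : IsScalarTower K N N⟮α⟯ := inferInstance
  haveI : IsScalarTower K N⟮α⟯ (AlgebraicClosure K) := IsScalarTower.of_algebraMap_eq fun x => rfl
  have hsubN : adjoin K (S ∪ ⋃ Q ∈ 𝒬, coords Q) ≤ N.restrictScalars K := by
    rw [adjoin_le_iff]
    rintro t (ht | ht)
    · exact N.algebraMap_mem ⟨t, hE3 ht⟩
    · exact subset_adjoin E₀ _ ht
  -- the degree
  have hdeg : (minpoly N α).natDegree ≤ (minpoly M α).natDegree := by
    set q : Polynomial (AlgebraicClosure K) := (minpoly M α).map (algebraMap M (AlgebraicClosure K)) with hq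
    have hqm : q.Monic := (minpoly.monic hαM).map _
    obtain ⟨g, hg⟩ : ∃ g : Polynomial N, g.map (algebraMap N (AlgebraicClosure K)) = q := by
      have : q ∈ Polynomial.lifts (algebraMap N (AlgebraicClosure K)) :=
        (Polynomial.lifts_iff_coeff_lifts q).mpr fun i => ⟨⟨q.coeff i, by
          rw [hq, coeff_map]
          exact hsubN (h3 i)⟩, rfl⟩
      exact (Polynomial.mem_lifts q).mp this
    have hp0 : aeval α g = 0 := by
      rw [← eval_map_algebraMap, hg, hq, eval_map_algebraMap, minpoly.aeval]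
    have hpne : g ≠ 0 := by
      rintro rfl
      rw [Polynomial.map_zero] at hg
      exact hqm.ne_zero hg.symm
    have h4 := natDegree_le_of_dvd (minpoly.dvd N α hp0) hpne
    have h5 : g.natDegree = (minpoly M α).natDegree := by
      rw [← natDegree_map (algebraMap N (AlgebraicClosure K)), hg, hq, natDegree_map]
    rwa [h5] at h4
  -- the point over the number field
  let ι : N⟮α⟯ →ₐ[K] (AlgebraicClosure K) := IsScalarTower.toAlgHom K N⟮α⟯ (AlgebraicClosure K)
  have hmem : ∀ t ∈ coords P, ∃ t' : N⟮α⟯, ι t' = t := by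
    intro t ht
    have h4 : K⟮α⟯ ≤ (N⟮α⟯).restrictScalars K := by
      rw [adjoin_simple_le_iff]
      exact mem_adjoin_simple_self N α
    exact ⟨⟨t, h4 (hα t ht)⟩, rfl⟩
  obtain ⟨P', hP'⟩ : ∃ P' : (W.baseChange N⟮α⟯).Point, Point.map (W' := W) ι P' = P := by
    rcases P with _ | ⟨x, y, h⟩
    · exact ⟨Point.zero, rfl⟩
    · obtain ⟨x', hx'⟩ := hmem x (by simp [coords])
      obtain ⟨y', hy'⟩ := hmem y (by simp [coords])
      subst hx'
      subst hy'
      exact ⟨Point.some x' y' ((W.baseChange_nonsingular (f := ι) ι.injective ..).mp h), rfl⟩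
  have hP'o : ¬ IsOfFinAddOrder P' := by
    intro hcon
    apply hP
    rw [← hP']
    exact (Point.map (W' := W) ι).isOfFinAddOrder hcon
  obtain ⟨h, hlim, hb⟩ := H E₀ N N⟮α⟯ (hfew E₀ hE4 hE2) (adjoin_xySet W p h2 E₀ N hN) P' hP'o
  refine ⟨h, ?_, fun e he => ?_⟩
  · refine hlim.congr fun k => ?_
    rw [logHeight_xc W ψ ι, map_nsmul, hP']
    have h5 : (finrank ℚ N⟮α⟯ : ℝ) ≠ 0 := by
      have : 0 < finrank ℚ N⟮α⟯ := finrank_pos
      exact_mod_cast this.ne'
    rw [mul_div_mul_left _ _ h5]
  · refine le_trans (bd_anti hC (Nat.cast_nonneg e) ?_ ?_) (hb e (he E₀ hE4 hE2))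
    · have : 0 < finrank N N⟮α⟯ := finrank_pos
      exact_mod_cast this
    · rw [adjoin.finrank hαN]
      exact_mod_cast hdeg

variable {W}

lemma normal_of_comm {M : IntermediateField K (AlgebraicClosure K)} (T : IntermediateField M (AlgebraicClosure K))
    (hT : ∀ (σ τ : (AlgebraicClosure K) →ₐ[M] (AlgebraicClosure K)), ∀ x ∈ T, σ (τ x) = τ (σ x)) :
    Normal M T := by
  haveI : Algebra.IsAlgebraic M (AlgebraicClosure K) := Algebra.IsAlgebraic.tower_top (K := K) _
  haveI : IsAlgClosure M (AlgebraicClosure K) := ⟨inferInstance, inferInstance⟩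
  haveI : Normal M (AlgebraicClosure K) := inferInstance
  haveI : IsGalois M (AlgebraicClosure K) := ⟨⟩
  rw [normal_iff_forall_map_le']
  rintro σ _ ⟨x, hx, rfl⟩
  have h12 : fixedField T.fixingSubgroup = T := InfiniteGalois.fixedField_fixingSubgroup T
  rw [← h12]
  rintro ⟨τ, hτ⟩
  have h1 : τ x = x := hτ ⟨x, hx⟩
  have h2 := hT (τ : (AlgebraicClosure K) →ₐ[M] (AlgebraicClosure K)) (σ : (AlgebraicClosure K) →ₐ[M] (AlgebraicClosure K)) x hx
  have h3 : τ (σ x) = σ (τ x) := h2
  show τ (σ x) = σ x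
  rw [h3, h1]

lemma ab_of_comm {M : IntermediateField K (AlgebraicClosure K)} (T : IntermediateField M (AlgebraicClosure K))
    (hT : ∀ (σ τ : (AlgebraicClosure K) →ₐ[M] (AlgebraicClosure K)), ∀ x ∈ T, σ (τ x) = τ (σ x)) :
    IsGalois M T ∧ ∀ σ τ : T ≃ₐ[M] T, σ * τ = τ * σ := by
  haveI : Algebra.IsAlgebraic M (AlgebraicClosure K) := Algebra.IsAlgebraic.tower_top (K := K) _
  haveI : IsAlgClosure M (AlgebraicClosure K) := ⟨inferInstance, inferInstance⟩
  haveI : Normal M (AlgebraicClosure K) := inferInstance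
  haveI hTn : Normal M T := normal_of_comm T hT
  haveI hTg : IsGalois M T := ⟨⟩
  refine ⟨hTg, ?_⟩
  intro a b
  obtain ⟨σ, rfl⟩ := AlgEquiv.restrictNormalHom_surjective (F := M) (K₁ := T) (AlgebraicClosure K) a
  obtain ⟨τ, rfl⟩ := AlgEquiv.restrictNormalHom_surjective (F := M) (K₁ := T) (AlgebraicClosure K) b
  rw [← map_mul, ← map_mul]
  ext ⟨x, hx⟩
  have h1 : ((AlgEquiv.restrictNormalHom T (σ * τ)) ⟨x, hx⟩ : (AlgebraicClosure K)) = (σ * τ) x :=
    AlgEquiv.restrictNormal_commutes (σ * τ) T ⟨x, hx⟩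
  have h2 : ((AlgEquiv.restrictNormalHom T (τ * σ)) ⟨x, hx⟩ : (AlgebraicClosure K)) = (τ * σ) x :=
    AlgEquiv.restrictNormal_commutes (τ * σ) T ⟨x, hx⟩
  rw [h1, h2]
  exact hT (σ : (AlgebraicClosure K) →ₐ[M] (AlgebraicClosure K)) (τ : (AlgebraicClosure K) →ₐ[M] (AlgebraicClosure K)) x hx

/-- the field generated over `K` by the coordinates of the points of `Γ` -/
noncomputable def ptFieldK (Γ : Set (W.baseChange (AlgebraicClosure K)).Point) : IntermediateField K (AlgebraicClosure K) :=
  adjoin K {t | ∃ Q ∈ Γ, t ∈ coords Q}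

/-- **Main theorem of the file.** -/
theorem main {C : ℝ} (hC : 0 < C) {𝔭 : Ideal (𝓞 K)} {B n : ℕ}
    (H : LibBound W p 𝔭 B n C) (E : IntermediateField K (AlgebraicClosure K)) [Normal K E] (hfew : FewInf 𝔭 E B n)
    (Γ : Set (W.baseChange (AlgebraicClosure K)).Point) (hΓ : ∀ Q ∈ Γ, InHull W p (bigField W p E) Q) :
    (IsGalois (bigField W p E) (ptField (bigField W p E) Γ) ∧
      ∀ σ τ : ptField (bigField W p E) Γ ≃ₐ[bigField W p E] ptField (bigField W p E) Γ,
        σ * τ = τ * σ) ∧
    ∀ (P : (W.baseChange (AlgebraicClosure K)).Point), ¬ IsOfFinAddOrder P →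
    ∃ h : ℝ, Tendsto (fun k : ℕ => xHeight (p ^ k • P) / (p : ℝ) ^ (2 * k)) atTop (𝓝 h) ∧
      ∀ e : ℕ, RamInf 𝔭 E e →
      bd C e (finrank (bigField W p E)
          (↥(adjoin (bigField W p E) (coords P) ⊓ ptField (bigField W p E) Γ)) *
        finrank (ptFieldK Γ) (adjoin (ptFieldK Γ) (coords P))) ≤ h ∧
      ((∀ T : IntermediateField (bigField W p E) (AlgebraicClosure K),
        T ≤ adjoin (bigField W p E) (coords P) →
        (IsGalois (bigField W p E) T ∧
          ∀ σ τ : T ≃ₐ[bigField W p E] T, σ * τ = τ * σ) → T = ⊥) →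
        bd C e (finrank (ptFieldK Γ) (adjoin (ptFieldK Γ) (coords P))) ≤ h) := by
  classical
  have htor : torSet W p ⊆ (bigField W p E : Set (AlgebraicClosure K)) := fun t ht =>
    subset_adjoin K _ (Or.inr ht)
  refine ⟨ab_of_comm _ fun σ τ x hx => comm_ptField htor hΓ σ τ hx, fun P hP => ?_⟩
  -- a primitive element
  have hfin : FiniteDimensional K (adjoin K (coords P)) := by
    haveI : Finite (coords P) := (coords_finite P).to_subtype
    exact IntermediateField.finiteDimensional_adjoin fun x _ =>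
      (Algebra.IsAlgebraic.isAlgebraic x).isIntegral
  obtain ⟨a, ha⟩ := Field.exists_primitive_element K (adjoin K (coords P))
  set α : (AlgebraicClosure K) := (a : (AlgebraicClosure K)) with hαdef
  have hα : K⟮α⟯ = adjoin K (coords P) := by
    have h1 := congrArg (IntermediateField.map (adjoin K (coords P)).val) ha
    rw [IntermediateField.adjoin_map, Set.image_singleton] at h1
    have h2 : IntermediateField.map (adjoin K (coords P)).val ⊤ = adjoin K (coords P) := by
      rw [← AlgHom.fieldRange_eq_map, IntermediateField.fieldRange_val]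
    rw [h2] at h1
    exact h1
  have hgen : ∀ F : IntermediateField K (AlgebraicClosure K), adjoin F (coords P) = F⟮α⟯ := by
    intro F
    apply le_antisymm
    · rw [adjoin_le_iff]
      intro t ht
      have h4 : K⟮α⟯ ≤ (F⟮α⟯).restrictScalars K := by
        rw [adjoin_simple_le_iff]
        exact mem_adjoin_simple_self F α
      apply h4
      rw [hα]
      exact subset_adjoin K _ ht
    · rw [adjoin_simple_le_iff]
      have h4 : adjoin K (coords P) ≤ (adjoin F (coords P)).restrictScalars K := by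
        rw [adjoin_le_iff]
        exact subset_adjoin F _
      apply h4
      rw [← hα]
      exact mem_adjoin_simple_self K α
  have hαK : IsIntegral K α := (Algebra.IsAlgebraic.isAlgebraic α).isIntegral
  obtain ⟨h, hlim, hb⟩ := bound_bigField W hC H E hfew P hP α (fun t ht => by
    rw [hα]
    exact subset_adjoin K _ ht)
  have hpos : (1 : ℝ) ≤ (minpoly (bigField W p E) α).natDegree := by
    have : 0 < (minpoly (bigField W p E) α).natDegree := minpoly.natDegree_pos hαK.tower_top
    exact_mod_cast this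
  have hdeg : (minpoly (bigField W p E) α).natDegree ≤
      finrank (bigField W p E)
          (↥(adjoin (bigField W p E) (coords P) ⊓ ptField (bigField W p E) Γ)) *
        finrank (ptFieldK Γ) (adjoin (ptFieldK Γ) (coords P)) := by
    haveI : Algebra.IsAlgebraic (bigField W p E) (AlgebraicClosure K) := Algebra.IsAlgebraic.tower_top (K := K) _
    haveI : IsAlgClosure (bigField W p E) (AlgebraicClosure K) := ⟨inferInstance, inferInstance⟩
    haveI : Normal (bigField W p E) (AlgebraicClosure K) := inferInstance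
    haveI hTn : Normal (bigField W p E) (ptField (bigField W p E) Γ) :=
      normal_of_comm _ fun σ τ x hx => comm_ptField htor hΓ σ τ hx
    have h5 := Pool.Agent.U218.ED.degree_le_inf (ptField (bigField W p E) Γ) α
    rw [hgen (bigField W p E), hgen (ptFieldK Γ)]
    have h6 : finrank (ptFieldK Γ) (ptFieldK Γ)⟮α⟯ =
        (minpoly (ptFieldK Γ) α).natDegree := adjoin.finrank hαK.tower_top
    rw [h6]
    -- degree over the smaller field
    have hle : ∀ x ∈ ptFieldK Γ, x ∈ ptField (bigField W p E) Γ := by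
      have h2 : ptFieldK Γ ≤ (ptField (bigField W p E) Γ).restrictScalars K := by
        unfold ptFieldK
        rw [adjoin_le_iff]
        intro y hy
        exact subset_adjoin (bigField W p E) _ hy
      exact h2
    let j : ptFieldK Γ →+* ptField (bigField W p E) Γ :=
      { toFun := fun x => ⟨x.1, hle x.1 x.2⟩
        map_one' := rfl
        map_mul' := fun _ _ => rfl
        map_zero' := rfl
        map_add' := fun _ _ => rfl }
    have hint : IsIntegral (ptFieldK Γ) α := hαK.tower_top
    have e1 : minpoly (ptField (bigField W p E) Γ) α ∣ (minpoly (ptFieldK Γ) α).map j := by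
      apply minpoly.dvd
      rw [aeval_def, eval₂_map]
      have : (algebraMap (ptField (bigField W p E) Γ) (AlgebraicClosure K)).comp j = algebraMap (ptFieldK Γ) (AlgebraicClosure K) := rfl
      rw [this, ← aeval_def, minpoly.aeval]
    have e2 := natDegree_le_of_dvd e1 ((Polynomial.map_ne_zero_iff j.injective).mpr
      (minpoly.ne_zero hint))
    rw [natDegree_map] at e2
    exact h5.trans (Nat.mul_le_mul_left _ e2)
  refine ⟨h, hlim, fun e he => ?_⟩
  have hmain : bd C e (finrank (bigField W p E)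
          (↥(adjoin (bigField W p E) (coords P) ⊓ ptField (bigField W p E) Γ)) *
        finrank (ptFieldK Γ) (adjoin (ptFieldK Γ) (coords P))) ≤ h := by
    refine le_trans (bd_anti hC (Nat.cast_nonneg e) hpos ?_) (hb e he)
    exact_mod_cast hdeg
  refine ⟨hmain, fun hno => ?_⟩
  have h3 := hno (adjoin (bigField W p E) (coords P) ⊓ ptField (bigField W p E) Γ) inf_le_left
    (ab_of_comm _ fun σ τ x hx => comm_ptField htor hΓ σ τ hx.2)
  rw [h3, IntermediateField.finrank_bot, Nat.cast_one, one_mul] at hmain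
  exact hmain

end tower

end Pool.Agent.U218.EE
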